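import Pool.Agent.W559.Et.Stm6

/-!
The affine atlas of a smooth projective variety with a linearized action of a finite cyclic group.
-/

set_option autoImplicit false
set_option linter.unusedSectionVars false

universe u

namespace Pool.Agent.W605.Et

open Pool.Agent.H920R2 Pool.Agent.W559.Et

section nm

variable {k L : Type u} [Field k] [Field L] [Algebra k L] (σ : L →ₐ[k] L)

/-- The norm. -/
noncomputable def nm (N : ℕ) (F : L) : L := ∏ i ∈ Finset.range N, (σ ^ i) F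

lemma pow_eq (a : ℕ) (x : L) : (σ ^ a) x = σ^[a] x := by
  induction a generalizing x with
  | zero => rfl
  | succ a ih =>
    rw [Function.iterate_succ_apply, ← ih, pow_succ]
    rfl

lemma pow_succ_app (a : ℕ) (x : L) : (σ ^ (a + 1)) x = σ ((σ ^ a) x) := by
  rw [pow_succ']
  rfl

lemma nm_ne {N : ℕ} {F : L} (hF : F ≠ 0) : nm σ N F ≠ 0 :=
  Finset.prod_ne_zero_iff.2 fun _ _ => (map_ne_zero _).2 hF

lemma nm_fix {N : ℕ} (hN : ∀ x, σ^[N] x = x) {F : L} (hF : F ≠ 0) : σ (nm σ N F) = nm σ N F := by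
  have h0 : (σ ^ 0) F = F := rfl
  have h1 : (∏ i ∈ Finset.range N, (σ ^ (i + 1)) F) * (σ ^ 0) F =
      (∏ i ∈ Finset.range N, (σ ^ i) F) * (σ ^ N) F :=
    (Finset.prod_range_succ' (fun i => (σ ^ i) F) N).symm.trans
      (Finset.prod_range_succ (fun i => (σ ^ i) F) N)
  rw [h0, pow_eq, hN] at h1
  have h2 := mul_right_cancel₀ hF h1
  unfold nm
  rw [map_prod]
  refine (Finset.prod_congr rfl fun i _ => ?_).trans h2
  exact (pow_succ_app σ i F).symm

variable {l : ℕ} (z : Fin (l + 1) → L)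

lemma FS_mono {d d' : ℕ} (h : d = d') {x : L} (hx : x ∈ FS k z d) : x ∈ FS k z d' := by
  rw [← h]; exact hx

lemma FS_pow1 {x : L} (hx : x ∈ FS k z 1) (a : ℕ) : x ^ a ∈ FS k z a := by
  induction a with
  | zero => rw [pow_zero]; exact FS_one z
  | succ a ih => rw [pow_succ]; exact FS_mul z ih hx

lemma FS_prodpow (y : Fin (l + 1) → L) (hy : ∀ i, y i ∈ FS k z 1) (a : Fin (l + 1) → ℕ)
    (s : Finset (Fin (l + 1))) : ∏ i ∈ s, y i ^ a i ∈ FS k z (∑ i ∈ s, a i) := by
  classical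
  induction s using Finset.induction_on with
  | empty => rw [Finset.prod_empty, Finset.sum_empty]; exact FS_one z
  | insert i s hi ih =>
    rw [Finset.prod_insert hi, Finset.sum_insert hi]
    exact FS_mul z (FS_pow1 z (hy i) _) ih

lemma span_FS {x : L} (hx : x ∈ Submodule.span k (Set.range z)) : x ∈ FS k z 1 := by
  induction hx using Submodule.span_induction with
  | mem x hx =>
    obtain ⟨i, rfl⟩ := hx
    have h1 := FS_z (k := k) z i 1
    rwa [pow_one] at h1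
  | zero => exact Submodule.zero_mem _
  | add a b _ _ ha hb => exact Submodule.add_mem _ ha hb
  | smul c a _ ha => exact Submodule.smul_mem _ c ha

lemma FS_span {x : L} (hx : x ∈ FS k z 1) : x ∈ Submodule.span k (Set.range z) := by
  unfold FS at hx
  refine Submodule.span_le.2 ?_ hx
  rintro _ ⟨a, ha, rfl⟩
  obtain ⟨i, hi⟩ : ∃ i, a i ≠ 0 := by
    by_contra hcon
    push Not at hcon
    have h1 : ∑ i, a i = 0 := Finset.sum_eq_zero fun i _ => hcon i
    omega
  have h2 : a i + ∑ j ∈ Finset.univ.erase i, a j = 1 := by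
    rw [Finset.add_sum_erase _ _ (Finset.mem_univ i)]; exact ha
  have h3 : ∑ j ∈ Finset.univ.erase i, a j = 0 := by omega
  have h4 : a i = 1 := by omega
  have h5 : ∏ j, z j ^ a j = z i := by
    rw [← Finset.mul_prod_erase _ _ (Finset.mem_univ i), h4, pow_one]
    have h6 : ∏ j ∈ Finset.univ.erase i, z j ^ a j = 1 := Finset.prod_eq_one fun j hj => by
      rw [(Finset.sum_eq_zero_iff.1 h3) j hj, pow_zero]
    rw [h6, mul_one]
  change ∏ j, z j ^ a j ∈ Submodule.span k (Set.range z)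
  rw [h5]
  exact Submodule.subset_span ⟨i, rfl⟩

variable (hσ : ∀ i, σ (z i) ∈ FS k z 1)

include hσ in
lemma FS_sig {d : ℕ} {x : L} (hx : x ∈ FS k z d) : σ x ∈ FS k z d := by
  unfold FS at hx
  induction hx using Submodule.span_induction with
  | mem x hx =>
    obtain ⟨a, ha, rfl⟩ := hx
    rw [map_prod]
    have h1 := FS_prodpow z (fun i => σ (z i)) hσ a Finset.univ
    rw [ha] at h1
    refine Eq.mp ?_ h1
    congr 1
    exact Finset.prod_congr rfl fun i _ => (map_pow σ _ _).symm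
  | zero => rw [map_zero]; exact Submodule.zero_mem _
  | add a b _ _ ha hb => rw [map_add]; exact Submodule.add_mem _ ha hb
  | smul c a _ ha => rw [map_smul]; exact Submodule.smul_mem _ c ha

include hσ in
lemma FS_sigp {d : ℕ} (a : ℕ) {x : L} (hx : x ∈ FS k z d) : (σ ^ a) x ∈ FS k z d := by
  induction a with
  | zero => exact hx
  | succ a ih => rw [pow_succ_app]; exact FS_sig σ z hσ ih

include hσ in
lemma FS_nm {d N : ℕ} {F : L} (hF : F ∈ FS k z d) : nm σ N F ∈ FS k z (N * d) := by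
  have h1 := FS_prod (k := k) z (Finset.range N) (fun i => (σ ^ i) F)
    fun i _ => FS_sigp σ z hσ i hF
  rw [Finset.card_range] at h1
  exact h1

include hσ in
lemma AF_sig {d : ℕ} {G : L} (hG : σ G = G) {x : L} (hx : x ∈ AF k z d G) :
    σ x ∈ AF k z d G := by
  unfold AF at hx
  induction hx using Algebra.adjoin_induction with
  | mem y hy =>
    obtain ⟨x, hx, rfl⟩ := hy
    rw [map_div₀, hG]
    exact FS_div_mem z (FS_sig σ z hσ (Submodule.subset_span hx))
  | algebraMap r => rw [AlgHom.commutes]; exact Subalgebra.algebraMap_mem _ r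
  | add x y _ _ hx hy => rw [map_add]; exact Subalgebra.add_mem _ hx hy
  | mul x y _ _ hx hy => rw [map_mul]; exact Subalgebra.mul_mem _ hx hy

include hσ in
lemma AF_sigp {d : ℕ} {G : L} (hG : σ G = G) (a : ℕ) {x : L} (hx : x ∈ AF k z d G) :
    (σ ^ a) x ∈ AF k z d G := by
  induction a with
  | zero => exact hx
  | succ a ih => rw [pow_succ_app]; exact AF_sig σ z hσ hG ih

end nm

section val

variable {k L : Type u} [Field k] [Field L] [Algebra k L] (σ : L →ₐ[k] L)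

lemma val_comap (V : ValuationSubring L) (τ : L →+* L) (x y : L) :
    (V.comap τ).valuation x ≤ (V.comap τ).valuation y ↔
      V.valuation (τ x) ≤ V.valuation (τ y) := by
  by_cases hy : y = 0
  · rw [hy, map_zero, map_zero, map_zero, le_zero_iff, le_zero_iff, map_eq_zero, map_eq_zero,
      map_eq_zero]
  · have hy' : τ y ≠ 0 := (map_ne_zero τ).2 hy
    have h1 : (V.comap τ).valuation x ≤ (V.comap τ).valuation y ↔
        (V.comap τ).valuation (x / y) ≤ 1 := by
      rw [map_div₀, div_le_one₀ (zero_lt_iff.2 (((V.comap τ).valuation.ne_zero_iff).2 hy))]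
    have h2 : V.valuation (τ x) ≤ V.valuation (τ y) ↔ V.valuation (τ x / τ y) ≤ 1 := by
      rw [map_div₀, div_le_one₀ (zero_lt_iff.2 ((V.valuation.ne_zero_iff).2 hy'))]
    rw [h1, h2, ValuationSubring.valuation_le_one_iff, ValuationSubring.valuation_le_one_iff,
      ← map_div₀]
    rfl

variable {l : ℕ} (z : Fin (l + 1) → L)

/-- The value of a form of the translated family. -/
lemma val_good (hσ : ∀ i, σ (z i) ∈ FS k z 1) {N : ℕ} (hN : ∀ x, σ^[N] x = x)
    (V : ValuationSubring L) (hV : ∀ c : k, algebraMap k L c ∈ V) {i₁ : Fin (l + 1)}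
    (hi₁ : ∀ i, V.valuation (z i) ≤ V.valuation (z i₁)) {a : ℕ} (ha : a ≤ N) {d : ℕ} {F : L}
    (hg : GoodF z (V.comap ((σ ^ a : L →ₐ[k] L) : L →+* L)) d F) :
    V.valuation ((σ ^ a) F) = V.valuation (z i₁) ^ d := by
  obtain ⟨i₀, hi₀, hF⟩ := hg
  have h1 : ∀ i, V.valuation ((σ ^ a) (z i)) ≤ V.valuation ((σ ^ a) (z i₀)) := fun i =>
    (val_comap V _ _ _).1 (hi₀ i)
  have h2 : V.valuation ((σ ^ a) F) = V.valuation ((σ ^ a) (z i₀)) ^ d := by
    rw [← map_pow, ← map_pow]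
    rw [← map_pow] at hF
    exact le_antisymm ((val_comap V _ _ _).1 hF.le) ((val_comap V _ _ _).1 hF.ge)
  rw [h2]
  congr 1
  apply le_antisymm
  · have h3 := val_FS (k := k) z V hV hi₁ (FS_sigp (k := k) σ z hσ a
      (span_FS (k := k) z (Submodule.subset_span ⟨i₀, rfl⟩)))
    rwa [pow_one] at h3
  · have h3 := FS_span (k := k) z (FS_sigp (k := k) σ z hσ (N - a)
      (span_FS (k := k) z (Submodule.subset_span ⟨i₁, rfl⟩)))
    have h4 : ∀ x ∈ Submodule.span k (Set.range z),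
        V.valuation ((σ ^ a) x) ≤ V.valuation ((σ ^ a) (z i₀)) := by
      intro x hx
      induction hx using Submodule.span_induction with
      | mem x hx => obtain ⟨i, rfl⟩ := hx; exact h1 i
      | zero => rw [map_zero, map_zero]; exact zero_le
      | add a b _ _ ha hb =>
        rw [map_add]
        exact (V.valuation.map_add _ _).trans (max_le ha hb)
      | smul c x _ hx =>
        rw [map_smul, Algebra.smul_def, map_mul]
        have h1 : V.valuation (algebraMap k L c) ≤ 1 := (V.valuation_le_one_iff _).2 (hV c)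
        calc _ ≤ 1 * V.valuation ((σ ^ a) x) := mul_le_mul_left h1 _
          _ ≤ _ := by rw [one_mul]; exact hx
    have h5 := h4 _ h3
    have h6 : (σ ^ a) ((σ ^ (N - a)) (z i₁)) = z i₁ := by
      rw [pow_eq, pow_eq, ← Function.iterate_add_apply, Nat.add_sub_cancel' ha, hN]
    rwa [h6] at h5

lemma good_nm (hσ : ∀ i, σ (z i) ∈ FS k z 1) {N : ℕ} (hN : ∀ x, σ^[N] x = x)
    (V : ValuationSubring L) (hV : ∀ c : k, algebraMap k L c ∈ V) {d : ℕ} {F : L}
    (hg : ∀ a < N, GoodF z (V.comap ((σ ^ a : L →ₐ[k] L) : L →+* L)) d F) :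
    GoodF z V (N * d) (nm σ N F) := by
  obtain ⟨i₁, hi₁⟩ := exists_max_z z V
  refine ⟨i₁, hi₁, ?_⟩
  unfold nm
  rw [map_prod, Finset.prod_congr rfl fun a ha => val_good σ z hσ hN V hV hi₁
    (Finset.mem_range.1 ha).le (hg a (Finset.mem_range.1 ha)), Finset.prod_const,
    Finset.card_range, ← pow_mul, mul_comm]

end val

/-- The fractions of invariant elements. -/
lemma inv_frac {k L : Type u} [Field k] [Field L] [Algebra k L] (σ : L →ₐ[k] L)
    {N : ℕ} (hN0 : 0 < N) (hN : ∀ x, σ^[N] x = x) (A : Subalgebra k L)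
    (hA : ∀ a, ∀ x ∈ A, (σ ^ a) x ∈ A) {x : L} (hx : σ x = x)
    (hfr : ∃ a ∈ A, ∃ b ∈ A, b ≠ 0 ∧ x = a / b) :
    ∃ y, (y ∈ A ∧ σ y = y) ∧ ∃ y', (y' ∈ A ∧ σ y' = y') ∧ y' ≠ 0 ∧ x = y / y' := by
  obtain ⟨a, ha, b, hb, hb0, hxab⟩ := hfr
  have h0 : nm σ N b ≠ 0 := nm_ne σ hb0
  have hfix : σ (nm σ N b) = nm σ N b := nm_fix σ hN hb0
  have hmem : nm σ N b ∈ A := Subalgebra.prod_mem _ fun i _ => hA i b hb
  refine ⟨x * nm σ N b, ⟨?_, ?_⟩, nm σ N b, ⟨hmem, hfix⟩, h0, ?_⟩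
  · obtain ⟨N', rfl⟩ := Nat.exists_eq_succ_of_ne_zero hN0.ne'
    have h1 : nm σ (N' + 1) b = (∏ i ∈ Finset.range N', (σ ^ (i + 1)) b) * b := by
      unfold nm
      rw [Finset.prod_range_succ']
      rfl
    have h2 : x * nm σ (N' + 1) b = (∏ i ∈ Finset.range N', (σ ^ (i + 1)) b) * a := by
      rw [h1, hxab]
      field_simp
    change x * nm σ (N' + 1) b ∈ A
    rw [h2]
    exact Subalgebra.mul_mem _ (Subalgebra.prod_mem _ fun i _ => hA _ b hb) ha
  · rw [map_mul, hx, hfix]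
  · field_simp

/-- The affine atlas of a smooth projective variety with a linearized action. -/
theorem genAtlas : GenAtlasStm.{u} := by
  intro k L _ _ _ l z hz hsm hgen σ N hN0 hN hσ γ h a b hγ hh hfix Kf hKf
  classical
  have hσ' : ∀ i, σ (z i) ∈ FS k z 1 := fun i => span_FS z (hσ i)
  obtain ⟨N₀, rfl⟩ := Nat.exists_eq_succ_of_ne_zero hN0.ne'
  obtain ⟨d, Φ, hd, hfin, hΦ, hcov⟩ := exists_forms z hz k N₀
  let Φ' : Set L := Φ ∩ {F | F ≠ 0}
  have hfin' : Finite Φ' := (hfin.subset Set.inter_subset_left)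
  obtain ⟨N', ⟨ε⟩⟩ := Finite.exists_equiv_fin Φ'
  have hd' : 1 ≤ (N₀ + 1) * d := Nat.mul_pos (Nat.succ_pos N₀) hd
  let G : Fin N' → L := fun t => nm σ (N₀ + 1) (ε.symm t : Φ')
  have hG : ∀ t, G t ∈ FS k z ((N₀ + 1) * d) := fun t => FS_nm σ z hσ' (hΦ _ (ε.symm t).2.1)
  have hG0 : ∀ t, G t ≠ 0 := fun t => nm_ne σ (ε.symm t).2.2
  have hGσ : ∀ t, σ (G t) = G t := fun t => nm_fix σ hN (ε.symm t).2.2
  have hAσ : ∀ t a, ∀ x ∈ AF k z ((N₀ + 1) * d) (G t), (σ ^ a) x ∈ AF k z ((N₀ + 1) * d) (G t) :=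
    fun t a x hx => AF_sigp σ z hσ' (hGσ t) a hx
  have hfr : ∀ t x, ∃ a ∈ AF k z ((N₀ + 1) * d) (G t), ∃ b ∈ AF k z ((N₀ + 1) * d) (G t),
      b ≠ 0 ∧ x = a / b := by
    intro t x
    obtain ⟨a, b, hb, hx⟩ := AF_frac hz hgen hd' (hG0 t) x
    exact ⟨a, a.2, b, b.2, hb, hx⟩
  refine ⟨N', fun t => {x | x ∈ AF k z ((N₀ + 1) * d) (G t) ∧ σ x = x}, ?_, (N₀ + 1) * d, hd',
    fun t => G t.down, fun t => ⟨hG _, hG0 _, hGσ _⟩, ?_, fun t => smooth_AF z hz hsm hd' (hG _)
    (hG0 _)⟩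
  · intro t x hx
    obtain ⟨y, hy, y', hy', hy0, h1⟩ := inv_frac σ (Nat.succ_pos N₀) hN _ (hAσ t)
      ((hKf x).1 hx) (hfr t x)
    exact ⟨y, hy, y', hy', hy0, h1⟩
  · refine ⟨fun t => hG0 _, fun t => ((hfix _).2 (hGσ _)).1, fun t => ((hfix _).2 (hGσ _)).2,
      ?_, ?_, fun t x => hfr _ x, fun t t' => FS_div_mem z (hG _), ?_, ?_, ?_, ?_⟩
    · intro t x hx
      rw [hγ]
      exact hAσ _ a x hx
    · intro t x hx
      rw [hh]
      exact hAσ _ b x hx
    · intro t t' x hx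
      exact AF_gl z (hG _) (hG0 _) hx
    · intro V hV
      obtain ⟨F, hF, hgood⟩ := hcov
        (fun i => V.comap ((σ ^ (i : ℕ) : L →ₐ[k] L) : L →+* L)) (by
          intro i c
          change (σ ^ (i : ℕ)) (algebraMap k L c) ∈ V
          rw [AlgHom.commutes]
          exact hV c)
      have hF0 : F ≠ 0 := (hgood (Fin.last N₀)).ne_zero z hz
      refine ⟨⟨ε ⟨F, hF, hF0⟩⟩, ?_⟩
      have h1 : G (ε ⟨F, hF, hF0⟩) = nm σ (N₀ + 1) F := by
        change nm σ (N₀ + 1) (ε.symm (ε ⟨F, hF, hF0⟩) : Φ') = nm σ (N₀ + 1) F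
        rw [Equiv.symm_apply_apply]
      intro x hx
      change x ∈ AF k z ((N₀ + 1) * d) (G (ε ⟨F, hF, hF0⟩)) at hx
      rw [h1] at hx
      exact good_AF z hz V hV (good_nm σ z hσ' hN V hV fun a ha => hgood ⟨a, ha⟩) x hx
    · intro t
      refine ⟨t.down, fun x hx => ⟨hx.1, (hfix x).2 hx.2⟩⟩
    · intro x
      rw [hKf, hfix]

end Pool.Agent.W605.Et
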